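import Mathlib
import Pool.Agent.H612.LR.T_KRO

/-!
Density of the sequences `ρ^n (w₁^n (1/2 + n b) + w₂^n (1/2 + n b̄))` for suitable small `b`.
-/

set_option autoImplicit false

namespace Pool.Agent.V11205.NH

open Filter Topology ComplexConjugate

/-- Kronecker for two independent points. -/
theorem kron2 (w1 w2 p1 p2 : ℂ) (hw1 : ‖w1‖ = 1) (hw2 : ‖w2‖ = 1) (hp1 : ‖p1‖ = 1)
    (hp2 : ‖p2‖ = 1) (hind : ∀ m n : ℤ, w1 ^ m * w2 ^ n = 1 → m = 0 ∧ n = 0)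
    (ε : ℝ) (hε : 0 < ε) (N : ℕ) :
    ∃ n, N ≤ n ∧ ‖w1 ^ n - p1‖ < ε ∧ ‖w2 ^ n - p2‖ < ε := by
  obtain ⟨t, ht, h⟩ := Pool.Agent.H612.LR.t_KRO {0, 1} (fun i => if i = 0 then w1 else w2)
    (fun i => if i = 0 then p1 else p2) (by intro i _; by_cases h : i = 0 <;> simp [h, *])
    (by
      intro e he
      simp only [Pool.Agent.H612.LR.mon] at he ⊢
      rw [Finset.prod_pair (by norm_num)] at he ⊢
      simp only [if_true, one_ne_zero, if_false] at he ⊢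
      obtain ⟨h0, h1⟩ := hind _ _ he
      simp [h0, h1]) ε hε N
  refine ⟨t, ht, ?_, ?_⟩
  · simpa using h 0 (by simp)
  · simpa using h 1 (by simp)

lemma conj_mul_self_unit {z : ℂ} (hz : ‖z‖ = 1) : conj z * z = 1 := by
  rw [← Complex.normSq_eq_conj_mul_self, Complex.normSq_eq_norm_sq, hz]; norm_num

lemma mul_conj_unit {z : ℂ} (hz : ‖z‖ = 1) : z * conj z = 1 := by
  rw [mul_comm, conj_mul_self_unit hz]

theorem kronPair (w1 w2 ω κ : ℂ) (hw1 : ‖w1‖ = 1) (hw2 : ‖w2‖ = 1) (hω : ‖ω‖ = 1)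
    (hκ : ‖κ‖ = 1) (hind : ∀ m n : ℤ, w1 ^ m * w2 ^ n = 1 → m = 0 ∧ n = 0)
    (ε : ℝ) (hε : 0 < ε) (N : ℕ) :
    ∃ n, N ≤ n ∧ ∃ q s : ℂ, ‖q‖ = 1 ∧ ‖s‖ = 1 ∧ w1 ^ n = q * s ∧ w2 ^ n = q * conj s ∧
      ‖q - ω‖ < ε ∧ ‖s - κ‖ < ε := by
  let v : ℂ × ℂ → ℂ := fun u => u.1 * u.2 * (conj ω) ^ 2
  let q : ℂ × ℂ → ℂ := fun u => ω * (1 + v u) / (‖1 + v u‖ : ℂ)
  let s : ℂ × ℂ → ℂ := fun u => u.1 * conj (q u)
  have hωω := mul_conj_unit hω
  have hκκ := mul_conj_unit hκ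
  have hv : v (ω * κ, ω * conj κ) = 1 := by
    simp only [v]
    calc ω * κ * (ω * conj κ) * (conj ω) ^ 2 = (κ * conj κ) * (ω * conj ω) ^ 2 := by ring
      _ = 1 := by rw [hωω, hκκ]; norm_num
  have hvc : Continuous v := by simp only [v]; fun_prop
  have hq : ContinuousAt q (ω * κ, ω * conj κ) := by
    simp only [q]
    refine ContinuousAt.div ?_ ?_ ?_
    · exact (continuous_const.mul (continuous_const.add hvc)).continuousAt
    · exact (Complex.continuous_ofReal.comp (continuous_const.add hvc).norm).continuousAt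
    · rw [hv]; norm_num
  have hq1 : q (ω * κ, ω * conj κ) = ω := by
    simp only [q]; rw [hv]
    have : ‖(1 : ℂ) + 1‖ = 2 := by norm_num
    rw [this]; push_cast; ring
  have hs : ContinuousAt s (ω * κ, ω * conj κ) := by
    simp only [s]
    exact continuous_fst.continuousAt.mul (Complex.continuous_conj.continuousAt.comp hq)
  have hs1 : s (ω * κ, ω * conj κ) = κ := by
    simp only [s]; rw [hq1]
    calc ω * κ * conj ω = (ω * conj ω) * κ := by ring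
      _ = κ := by rw [hωω, one_mul]
  have e1 : ∀ᶠ u in 𝓝 (ω * κ, ω * conj κ), ‖q u - ω‖ < ε := by
    have := hq.eventually (Metric.ball_mem_nhds _ hε)
    filter_upwards [this] with u hu
    rw [hq1] at hu
    simpa [dist_eq_norm] using hu
  have e2 : ∀ᶠ u in 𝓝 (ω * κ, ω * conj κ), ‖s u - κ‖ < ε := by
    have := hs.eventually (Metric.ball_mem_nhds _ hε)
    filter_upwards [this] with u hu
    rw [hs1] at hu
    simpa [dist_eq_norm] using hu
  have e3 : ∀ᶠ u in 𝓝 (ω * κ, ω * conj κ), 1 + v u ≠ 0 := by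
    have h1 : ContinuousAt (fun u => 1 + v u) (ω * κ, ω * conj κ) :=
      (continuous_const.add hvc).continuousAt
    exact h1.eventually_ne (by rw [hv]; norm_num)
  obtain ⟨δ, hδ, hb⟩ := Metric.eventually_nhds_iff.1 (e1.and (e2.and e3))
  obtain ⟨n, hn, h1, h2⟩ := kron2 w1 w2 (ω * κ) (ω * conj κ) hw1 hw2
    (by rw [norm_mul, hω, hκ, one_mul]) (by rw [norm_mul, hω, Complex.norm_conj, hκ, one_mul])
    hind δ hδ N
  obtain ⟨g1, g2, g3⟩ := hb (y := (w1 ^ n, w2 ^ n)) (by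
    rw [Prod.dist_eq, max_lt_iff]
    exact ⟨by simpa [dist_eq_norm] using h1, by simpa [dist_eq_norm] using h2⟩)
  have hu1 : ‖w1 ^ n‖ = 1 := by rw [norm_pow, hw1, one_pow]
  have hu2 : ‖w2 ^ n‖ = 1 := by rw [norm_pow, hw2, one_pow]
  set V := v (w1 ^ n, w2 ^ n) with hV
  have hVn : ‖V‖ = 1 := by
    rw [hV]; simp only [v]
    rw [norm_mul, norm_mul, hu1, hu2, norm_pow, Complex.norm_conj, hω]; norm_num
  have hVV := mul_conj_unit hVn
  set Q := q (w1 ^ n, w2 ^ n) with hQ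
  have hQd : Q = ω * (1 + V) / (‖1 + V‖ : ℂ) := rfl
  have hn0 : (‖1 + V‖ : ℂ) ≠ 0 := by
    have : ‖1 + V‖ ≠ 0 := norm_ne_zero_iff.2 g3
    exact_mod_cast this
  have hQn : ‖Q‖ = 1 := by
    rw [hQd, norm_div, norm_mul, hω, one_mul, Complex.norm_real, norm_norm,
      div_self (norm_ne_zero_iff.2 g3)]
  have hQQ := mul_conj_unit hQn
  have hsq : (‖1 + V‖ : ℂ) ^ 2 = (1 + V) * (1 + conj V) := by
    have : ((‖1 + V‖ ^ 2 : ℝ) : ℂ) = (1 + V) * conj (1 + V) := by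
      rw [Complex.mul_conj, Complex.normSq_eq_norm_sq]
    rw [map_add, map_one] at this
    rw [← this]; push_cast; ring
  have hQ2 : Q ^ 2 = w1 ^ n * w2 ^ n := by
    have h4 : Q ^ 2 * (‖1 + V‖ : ℂ) ^ 2 = (w1 ^ n * w2 ^ n) * (‖1 + V‖ : ℂ) ^ 2 := by
      have h5 : Q * (‖1 + V‖ : ℂ) = ω * (1 + V) := by
        rw [hQd, div_mul_cancel₀ _ hn0]
      have h6 : (w1 ^ n * w2 ^ n) = ω ^ 2 * V := by
        rw [hV]; simp only [v]
        calc w1 ^ n * w2 ^ n = w1 ^ n * w2 ^ n * (ω * conj ω) ^ 2 := by rw [hωω]; ring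
          _ = _ := by ring
      rw [← mul_pow, h5, h6, hsq]
      linear_combination (-ω ^ 2 * (1 + V)) * hVV
    exact mul_right_cancel₀ (pow_ne_zero 2 hn0) h4
  refine ⟨n, hn, Q, w1 ^ n * conj Q, hQn, ?_, ?_, ?_, g1, g2⟩
  · rw [norm_mul, hu1, Complex.norm_conj, hQn, one_mul]
  · linear_combination (-(w1 ^ n)) * hQQ
  · rw [map_mul, Complex.conj_conj]
    have := mul_conj_unit hu1
    linear_combination (-(w2 ^ n)) * this - conj (w1 ^ n) * hQ2

/-- the sequence -/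
noncomputable def F (w1 w2 : ℂ) (ρ : ℝ) (n : ℕ) (b : ℂ) : ℂ :=
  (ρ : ℂ) ^ n * (w1 ^ n * (1 / 2 + n * b) + w2 ^ n * (1 / 2 + n * conj b))

lemma F_eq {w1 w2 q s : ℂ} {ρ : ℝ} {n : ℕ} (hρ : 1 ≤ ρ) (hn : 1 ≤ n) (hs : ‖s‖ = 1)
    (h1 : w1 ^ n = q * s) (h2 : w2 ^ n = q * conj s) (b : ℂ) (r : ℝ) :
    F w1 w2 ρ n (b + ((-(s * b).re + (r / (2 * ρ ^ n) - s.re / 2) / n : ℝ) : ℂ) * conj s)
      = q * r := by
  have hn0 : (n : ℝ) ≠ 0 := by positivity
  have hρn : (ρ : ℝ) ^ n ≠ 0 := by positivity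
  set t : ℝ := -(s * b).re + (r / (2 * ρ ^ n) - s.re / 2) / n with ht
  set c : ℂ := 1 / 2 + n * (b + (t : ℂ) * conj s) with hc
  have hss := mul_conj_unit hs
  have h3 : F w1 w2 ρ n (b + (t : ℂ) * conj s) = (ρ : ℂ) ^ n * (q * (s * c + conj (s * c))) := by
    rw [F, h1, h2, hc]
    simp only [map_mul, map_add, map_div₀, map_one, Complex.conj_ofReal, Complex.conj_conj,
      map_natCast, map_ofNat]
    ring
  have h4 : s * c = s / 2 + n * (s * b) + n * t := by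
    rw [hc]; linear_combination ((n : ℂ) * t) * hss
  have h5 : (s * c).re = s.re / 2 + n * (s * b).re + n * t := by
    rw [h4]
    have e1 : (s / 2).re = s.re / 2 := by
      have : s / 2 = s / ((2 : ℝ) : ℂ) := by norm_num
      rw [this, Complex.div_ofReal_re]
    have e2 : ((n : ℂ) * (s * b)).re = n * (s * b).re := by
      have : ((n : ℂ) * (s * b)) = ((n : ℝ) : ℂ) * (s * b) := by norm_num
      rw [this, Complex.re_ofReal_mul]
    have e3 : ((n : ℂ) * (t : ℂ)).re = n * t := by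
      have : ((n : ℂ) * (t : ℂ)) = ((n * t : ℝ) : ℂ) := by push_cast; ring
      rw [this, Complex.ofReal_re]
    rw [Complex.add_re, Complex.add_re, e1, e2, e3]
  have h6 : 2 * (s * c).re = r / ρ ^ n := by
    rw [h5, ht]
    field_simp
    ring
  rw [h3, Complex.add_conj, h6]
  push_cast
  have : (ρ : ℂ) ^ n ≠ 0 := by exact_mod_cast hρn
  field_simp

lemma continuous_F (w1 w2 : ℂ) (ρ : ℝ) (n : ℕ) : Continuous (F w1 w2 ρ n) := by
  unfold F; fun_prop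

lemma dense_O {w1 w2 : ℂ} {ρ : ℝ} (hw1 : ‖w1‖ = 1) (hw2 : ‖w2‖ = 1) (hρ : 1 ≤ ρ)
    (hind : ∀ m n : ℤ, w1 ^ m * w2 ^ n = 1 → m = 0 ∧ n = 0) {U : Set ℂ} (hU : IsOpen U)
    (hne : U.Nonempty) : Dense {b | ∃ n, F w1 w2 ρ n b ∈ U} := by
  rw [Metric.dense_iff]
  intro x r hr
  obtain ⟨z, hz⟩ := hne
  obtain ⟨η, hη, hb⟩ := Metric.isOpen_iff.1 hU z hz
  -- a nonzero point near x
  obtain ⟨y, hy0, hyx⟩ : ∃ y : ℂ, y ≠ 0 ∧ ‖y - x‖ < r / 2 := by
    by_cases h : x = 0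
    · refine ⟨((r / 4 : ℝ) : ℂ), ?_, ?_⟩
      · have : r / 4 ≠ 0 := by positivity
        exact_mod_cast this
      · rw [h, sub_zero, Complex.norm_real, Real.norm_of_nonneg (by positivity)]; linarith
    · exact ⟨x, h, by simpa using by positivity⟩
  obtain ⟨ω, hω, hzω⟩ : ∃ ω : ℂ, ‖ω‖ = 1 ∧ z = ω * (‖z‖ : ℝ) := by
    by_cases h : z = 0
    · exact ⟨1, by simp, by simp [h]⟩
    · have h0 : ‖z‖ ≠ 0 := norm_ne_zero_iff.2 h
      refine ⟨z / (‖z‖ : ℝ), ?_, ?_⟩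
      · rw [norm_div, Complex.norm_real, norm_norm, div_self h0]
      · rw [div_mul_cancel₀]; exact_mod_cast h0
  have hyn : ‖y‖ ≠ 0 := norm_ne_zero_iff.2 hy0
  have hyc : (‖y‖ : ℂ) ≠ 0 := by exact_mod_cast hyn
  set κ : ℂ := Complex.I * conj y / (‖y‖ : ℂ) with hκd
  have hκ : ‖κ‖ = 1 := by
    rw [hκd, norm_div, norm_mul, Complex.norm_I, Complex.norm_conj, Complex.norm_real, norm_norm,
      one_mul, div_self hyn]
  have hκy : κ * y = Complex.I * (‖y‖ : ℂ) := by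
    have h1 : conj y * y = (‖y‖ : ℂ) ^ 2 := by
      rw [← Complex.normSq_eq_conj_mul_self, Complex.normSq_eq_norm_sq]; push_cast; ring
    rw [hκd, div_mul_eq_mul_div, mul_assoc, h1, div_eq_iff hyc]; ring
  have hκre : (κ * y).re = 0 := by rw [hκy]; simp
  set ε : ℝ := min (r / (8 * (‖y‖ + 1))) (η / (‖z‖ + 1)) with hεd
  have hε : 0 < ε := by rw [hεd]; positivity
  obtain ⟨N, hN⟩ := exists_nat_gt (8 * (‖z‖ + 1) / r)
  obtain ⟨n, hn, q, s, hq, hs, h1, h2, hqω, hsκ⟩ :=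
    kronPair w1 w2 ω κ hw1 hw2 hω hκ hind ε hε (N + 1)
  have hn1 : 1 ≤ n := by omega
  have hnpos : (0 : ℝ) < n := by positivity
  have hnN : 8 * (‖z‖ + 1) / r < n := hN.trans_le (by exact_mod_cast (by omega : N ≤ n))
  set t : ℝ := -(s * y).re + (‖z‖ / (2 * ρ ^ n) - s.re / 2) / n with ht
  refine ⟨y + (t : ℂ) * conj s, ?_, n, ?_⟩
  · rw [Metric.mem_ball, dist_eq_norm]
    have h3 : |(s * y).re| ≤ ε * ‖y‖ := by
      have : (s * y).re = ((s - κ) * y).re := by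
        rw [sub_mul, Complex.sub_re, hκre, sub_zero]
      rw [this]
      refine (Complex.abs_re_le_norm _).trans ?_
      rw [norm_mul]
      exact mul_le_mul_of_nonneg_right hsκ.le (norm_nonneg _)
    have h3' : ε * ‖y‖ ≤ r / 8 := by
      have : ε ≤ r / (8 * (‖y‖ + 1)) := min_le_left _ _
      calc ε * ‖y‖ ≤ r / (8 * (‖y‖ + 1)) * ‖y‖ := mul_le_mul_of_nonneg_right this (norm_nonneg _)
        _ = r / 8 * (‖y‖ / (‖y‖ + 1)) := by field_simp
        _ ≤ r / 8 * 1 := by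
            apply mul_le_mul_of_nonneg_left _ (by positivity)
            rw [div_le_one (by positivity)]; linarith
        _ = _ := mul_one _
    have h4 : |(‖z‖ / (2 * ρ ^ n) - s.re / 2) / n| ≤ r / 8 := by
      rw [abs_div, Nat.abs_cast, div_le_iff₀ hnpos]
      have e1 : |s.re| ≤ 1 := (Complex.abs_re_le_norm _).trans hs.le
      have e2 : 0 ≤ ‖z‖ / (2 * ρ ^ n) := by positivity
      have e3 : ‖z‖ / (2 * ρ ^ n) ≤ ‖z‖ := by
        apply div_le_self (norm_nonneg _)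
        have : 1 ≤ ρ ^ n := one_le_pow₀ hρ
        linarith
      have e4 : |‖z‖ / (2 * ρ ^ n) - s.re / 2| ≤ ‖z‖ + 1 := by
        rw [abs_le] at e1 ⊢
        constructor <;> linarith [e1.1, e1.2]
      refine e4.trans ?_
      rw [div_lt_iff₀ hr] at hnN
      nlinarith
    have h5 : |t| ≤ r / 4 := by
      rw [ht]
      refine (abs_add_le _ _).trans ?_
      rw [abs_neg]; linarith
    calc ‖y + (t : ℂ) * conj s - x‖ = ‖(y - x) + (t : ℂ) * conj s‖ := by congr 1; ring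
      _ ≤ ‖y - x‖ + ‖(t : ℂ) * conj s‖ := norm_add_le _ _
      _ = ‖y - x‖ + |t| := by
          rw [norm_mul, Complex.norm_conj, hs, mul_one, Complex.norm_real, Real.norm_eq_abs]
      _ < r := by linarith
  · apply hb
    rw [F_eq hρ hn1 hs h1 h2 y ‖z‖, Metric.mem_ball, dist_eq_norm]
    have : q * (‖z‖ : ℝ) - z = (q - ω) * (‖z‖ : ℝ) := by
      rw [sub_mul, ← hzω]
    rw [this, norm_mul, Complex.norm_real, norm_norm]
    have h6 : ε ≤ η / (‖z‖ + 1) := min_le_right _ _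
    calc ‖q - ω‖ * ‖z‖ ≤ η / (‖z‖ + 1) * ‖z‖ :=
          mul_le_mul_of_nonneg_right (hqω.le.trans h6) (norm_nonneg _)
      _ = η * (‖z‖ / (‖z‖ + 1)) := by field_simp
      _ < η * 1 := by
          apply mul_lt_mul_of_pos_left _ hη
          rw [div_lt_one (by positivity)]; linarith
      _ = η := mul_one _

theorem exists_b {w1 w2 : ℂ} {ρ : ℝ} (hw1 : ‖w1‖ = 1) (hw2 : ‖w2‖ = 1) (hρ : 1 ≤ ρ)
    (hind : ∀ m n : ℤ, w1 ^ m * w2 ^ n = 1 → m = 0 ∧ n = 0) {b0 : ℝ} (hb0 : 0 < b0) :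
    ∃ b : ℂ, ‖b‖ < b0 ∧ Dense (Set.range fun n : ℕ => F w1 w2 ρ n b) := by
  have hcount := TopologicalSpace.countable_countableBasis ℂ
  have hbas := TopologicalSpace.isBasis_countableBasis ℂ
  have hd : Dense (⋂ U ∈ TopologicalSpace.countableBasis ℂ, {b | ∃ n, F w1 w2 ρ n b ∈ U}) := by
    refine dense_biInter_of_isOpen ?_ hcount ?_
    · intro U hU
      have : {b | ∃ n, F w1 w2 ρ n b ∈ U} = ⋃ n, (F w1 w2 ρ n) ⁻¹' U := by
        ext b; simp
      rw [this]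
      exact isOpen_iUnion fun n => (hbas.isOpen hU).preimage (continuous_F _ _ _ _)
    · intro U hU
      exact dense_O hw1 hw2 hρ hind (hbas.isOpen hU)
        (TopologicalSpace.nonempty_of_mem_countableBasis hU)
  obtain ⟨b, hb, hb'⟩ := (Metric.dense_iff.1 hd) 0 b0 hb0
  refine ⟨b, by simpa using hb, ?_⟩
  rw [hbas.dense_iff]
  intro U hU _
  simp only [Set.mem_iInter] at hb'
  obtain ⟨n, hn⟩ := hb' U hU
  exact ⟨_, hn, n, rfl⟩

end Pool.Agent.V11205.NH
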