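import Mathlib

/-!
A norming pair `(x, g)` on a four-dimensional subspace of a complex normed space with a prescribed
behaviour in coordinates, found by maximising
`|x₁ x₃ exp (2 b x₀ / x₁ + 2 b̄ x₂ / x₃)|` on a part of the unit ball.
-/

set_option autoImplicit false

namespace Pool.Agent.V11205.NH

open Filter Topology ComplexConjugate

section slope

lemma re_le_zero_of_norm_le {k : ℂ → ℂ} {α : ℂ} (hk : HasDerivAt k α 0) (h0 : k 0 = 1)
    (hle : ∀ᶠ t : ℝ in 𝓝[>] 0, ‖k t‖ ≤ 1) : α.re ≤ 0 := by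
  have h1 : HasDerivAt (fun t : ℝ => (k t).re) α.re 0 := by
    have hk' : HasDerivAt k α ((0 : ℝ) : ℂ) := by simpa using hk
    exact hk'.real_of_complex
  have h2 := (hasDerivAt_iff_tendsto_slope.1 h1).mono_left
    (nhdsWithin_mono (0 : ℝ) (s := Set.Ioi 0) (t := {0}ᶜ) (by
      intro t ht; simp only [Set.mem_compl_iff, Set.mem_singleton_iff]; exact ne_of_gt ht))
  refine le_of_tendsto h2 ?_
  filter_upwards [hle, self_mem_nhdsWithin] with t ht hpos
  rw [slope_def_field]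
  have hpos' : (0 : ℝ) < t := hpos
  apply div_nonpos_of_nonpos_of_nonneg
  · simp only [Complex.ofReal_zero, h0, Complex.one_re]
    have := (Complex.re_le_norm (k t)).trans ht
    linarith
  · linarith

end slope

/-- the function to be maximised -/
noncomputable def H (b : ℂ) (c : Fin 4 → ℂ) : ℂ :=
  c 1 * c 3 * Complex.exp (2 * (b * c 0 / c 1 + conj b * c 2 / c 3))

/-- the functional in coordinates -/
noncomputable def phi (b : ℂ) (x : Fin 4 → ℂ) : (Fin 4 → ℂ) →ₗ[ℂ] ℂ where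
  toFun y := 1 / 2 * (y 1 / x 1) + b * (y 0 / x 1 - x 0 * y 1 / x 1 ^ 2) +
    (1 / 2 * (y 3 / x 3) + conj b * (y 2 / x 3 - x 2 * y 3 / x 3 ^ 2))
  map_add' y z := by simp only [Pi.add_apply]; ring
  map_smul' r y := by simp only [Pi.smul_apply, smul_eq_mul, RingHom.id_apply]; ring

lemma phi_apply (b : ℂ) (x y : Fin 4 → ℂ) :
    phi b x y = 1 / 2 * (y 1 / x 1) + b * (y 0 / x 1 - x 0 * y 1 / x 1 ^ 2) +
    (1 / 2 * (y 3 / x 3) + conj b * (y 2 / x 3 - x 2 * y 3 / x 3 ^ 2)) := rfl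

lemma phi_self (b : ℂ) (x : Fin 4 → ℂ) (h1 : x 1 ≠ 0) (h3 : x 3 ≠ 0) : phi b x x = 1 := by
  rw [phi_apply]; field_simp; ring

lemma hasDerivAt_H (b : ℂ) (x y : Fin 4 → ℂ) (h1 : x 1 ≠ 0) (h3 : x 3 ≠ 0) :
    HasDerivAt (fun t : ℂ => H b (x + t • (y - x)) / H b x) (2 * (phi b x y - 1)) 0 := by
  have hc : ∀ i, HasDerivAt (fun t : ℂ => (x + t • (y - x)) i) (y i - x i) 0 := by
    intro i
    have : HasDerivAt (fun t : ℂ => x i + t * (y i - x i)) (1 * (y i - x i)) 0 :=
      ((hasDerivAt_id (0 : ℂ)).mul_const _).const_add _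
    simpa using this
  have e0 : ∀ i, (x + (0 : ℂ) • (y - x)) i = x i := by intro i; simp
  have d1 := ((hc 0).const_mul b).div (hc 1) (by rw [e0]; exact h1)
  have d2 := ((hc 2).const_mul (conj b)).div (hc 3) (by rw [e0]; exact h3)
  have d3 := ((d1.add d2).const_mul 2).cexp
  have d4 := (((hc 1).mul (hc 3)).mul d3).div_const (H b x)
  refine d4.congr_deriv ?_
  have hE : Complex.exp (2 * (b * x 0 / x 1 + conj b * x 2 / x 3)) ≠ 0 := Complex.exp_ne_zero _
  simp only [Pi.mul_apply, Pi.div_apply, Pi.add_apply, H, phi_apply, zero_smul, Pi.zero_apply,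
    add_zero]
  generalize Complex.exp (2 * (b * x 0 / x 1 + conj b * x 2 / x 3)) = E at hE
  field_simp
  ring

theorem exists_opt {Y : Type*} [NormedAddCommGroup Y] [NormedSpace ℂ Y] (v : Fin 4 → Y)
    (hv : LinearIndependent ℂ v) :
    ∃ b0 : ℝ, 0 < b0 ∧ ∀ b : ℂ, ‖b‖ < b0 → ∃ (x : Fin 4 → ℂ) (g : StrongDual ℂ Y),
      x 1 ≠ 0 ∧ x 3 ≠ 0 ∧ ‖∑ i, x i • v i‖ = 1 ∧ ‖g‖ = 1 ∧ g (∑ i, x i • v i) = 1 ∧
      ∀ y : Fin 4 → ℂ, g (∑ i, y i • v i) = phi b x y := by
  set L : (Fin 4 → ℂ) →ₗ[ℂ] Y := Fintype.linearCombination ℂ v with hL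
  have hLa : ∀ c, L c = ∑ i, c i • v i := fun c => by rw [hL, Fintype.linearCombination_apply]
  have hinj : Function.Injective L := by
    rw [injective_iff_map_eq_zero]
    intro c hc
    rw [hLa] at hc
    funext i
    exact Fintype.linearIndependent_iff.1 hv c hc i
  have hLc : Continuous L := LinearMap.continuous_of_finiteDimensional L
  obtain ⟨K, hK0, hK⟩ := LinearMap.exists_antilipschitzWith L (LinearMap.ker_eq_bot.2 hinj)
  set C : ℝ := max K 1 with hC
  have hC1 : 1 ≤ C := le_max_right _ _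
  have hCK : ∀ c, ‖L c‖ ≤ 1 → ∀ i, ‖c i‖ ≤ C := by
    intro c hc i
    have h1 := hK.le_mul_dist c 0
    rw [map_zero, dist_zero_right, dist_zero_right] at h1
    calc ‖c i‖ ≤ ‖c‖ := norm_le_pi_norm c i
      _ ≤ K * ‖L c‖ := h1
      _ ≤ K * 1 := mul_le_mul_of_nonneg_left hc K.2
      _ = K := mul_one _
      _ ≤ C := le_max_left _ _
  -- a small point
  obtain ⟨κ, hκ0, hκ1, hκ⟩ : ∃ κ : ℝ, 0 < κ ∧ κ ≤ 1 ∧ ‖L ![0, (κ : ℂ), 0, (κ : ℂ)]‖ ≤ 1 := by
    set M : ℝ := ‖L ![0, 1, 0, 1]‖ with hM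
    refine ⟨1 / (M + 1), by positivity, ?_, ?_⟩
    · rw [div_le_one (by positivity)]; linarith [norm_nonneg (L ![0, 1, 0, 1])]
    · have : (![0, ((1 / (M + 1) : ℝ) : ℂ), 0, ((1 / (M + 1) : ℝ) : ℂ)] : Fin 4 → ℂ)
          = ((1 / (M + 1) : ℝ) : ℂ) • ![0, 1, 0, 1] := by
        ext i; fin_cases i <;> simp
      rw [this, map_smul, norm_smul, Complex.norm_real, Real.norm_of_nonneg (by positivity), ← hM,
        div_mul_eq_mul_div, div_le_one (by positivity)]
      linarith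
  set η : ℝ := κ ^ 2 / (6 * C) with hη
  have hη0 : 0 < η := by positivity
  have hηκ : η ≤ κ := by
    rw [hη, div_le_iff₀ (by positivity)]; nlinarith
  refine ⟨η / (4 * C), by positivity, ?_⟩
  intro b hb
  set R : Set (Fin 4 → ℂ) := {c | ‖L c‖ ≤ 1 ∧ η ≤ ‖c 1‖ ∧ η ≤ ‖c 3‖} with hR
  have hRc : IsCompact R := by
    apply Metric.isCompact_of_isClosed_isBounded
    · refine (isClosed_le hLc.norm continuous_const).inter
        ((isClosed_le continuous_const (continuous_apply 1).norm).inter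
          (isClosed_le continuous_const (continuous_apply 3).norm))
    · refine (Metric.isBounded_closedBall (x := (0 : Fin 4 → ℂ)) (r := C)).subset ?_
      intro c hc
      rw [mem_closedBall_zero_iff]
      exact (pi_norm_le_iff_of_nonneg (by linarith)).2 (hCK c hc.1)
  have hR0 : ∀ c ∈ R, c 1 ≠ 0 ∧ c 3 ≠ 0 := by
    intro c hc
    refine ⟨fun h => ?_, fun h => ?_⟩
    · have := hc.2.1; rw [h, norm_zero] at this; linarith
    · have := hc.2.2; rw [h, norm_zero] at this; linarith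
  have hcont : ContinuousOn (fun c => ‖H b c‖) R := by
    unfold H
    refine ContinuousOn.norm (ContinuousOn.mul ?_ (ContinuousOn.cexp ?_))
    · exact ((continuous_apply 1).mul (continuous_apply 3)).continuousOn
    · refine ContinuousOn.mul continuousOn_const (ContinuousOn.add ?_ ?_)
      · exact ContinuousOn.div (continuous_const.mul (continuous_apply 0)).continuousOn
          (continuous_apply 1).continuousOn fun c hc => (hR0 c hc).1
      · exact ContinuousOn.div (continuous_const.mul (continuous_apply 2)).continuousOn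
          (continuous_apply 3).continuousOn fun c hc => (hR0 c hc).2
  have hmem : ![0, (κ : ℂ), 0, (κ : ℂ)] ∈ R := by
    refine ⟨hκ, ?_, ?_⟩
    · simp [Real.norm_of_nonneg hκ0.le, abs_of_pos hκ0, hηκ]
    · simp [Real.norm_of_nonneg hκ0.le, abs_of_pos hκ0, hηκ]
  obtain ⟨x, hxR, hx⟩ := hRc.exists_isMaxOn ⟨_, hmem⟩ hcont
  have hval : ‖H b ![0, (κ : ℂ), 0, (κ : ℂ)]‖ = κ ^ 2 := by
    simp [H, abs_of_pos hκ0]; ring
  have hxκ : κ ^ 2 ≤ ‖H b x‖ := by rw [← hval]; exact hx hmem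
  obtain ⟨hx1, hx3⟩ := hR0 x hxR
  have hHx : H b x ≠ 0 := by
    intro h; rw [h, norm_zero] at hxκ
    have : 0 < κ ^ 2 := by positivity
    linarith
  -- bound of the exponential
  have hexp : ‖Complex.exp (2 * (b * x 0 / x 1 + conj b * x 2 / x 3))‖ ≤ Real.exp 1 := by
    rw [Complex.norm_exp]
    apply Real.exp_le_exp.2
    refine (Complex.re_le_norm _).trans ?_
    have g1 : ‖b * x 0 / x 1‖ ≤ 1 / 4 := by
      rw [norm_div, norm_mul, div_le_iff₀ (norm_pos_iff.2 hx1)]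
      calc ‖b‖ * ‖x 0‖ ≤ η / (4 * C) * C :=
            mul_le_mul hb.le (hCK x hxR.1 0) (norm_nonneg _) (by positivity)
        _ = 1 / 4 * η := by field_simp
        _ ≤ 1 / 4 * ‖x 1‖ := by linarith [hxR.2.1]
    have g2 : ‖conj b * x 2 / x 3‖ ≤ 1 / 4 := by
      rw [norm_div, norm_mul, Complex.norm_conj, div_le_iff₀ (norm_pos_iff.2 hx3)]
      calc ‖b‖ * ‖x 2‖ ≤ η / (4 * C) * C :=
            mul_le_mul hb.le (hCK x hxR.1 2) (norm_nonneg _) (by positivity)
        _ = 1 / 4 * η := by field_simp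
        _ ≤ 1 / 4 * ‖x 3‖ := by linarith [hxR.2.2]
    have g3 := norm_add_le (b * x 0 / x 1) (conj b * x 2 / x 3)
    rw [norm_mul]
    have : ‖(2 : ℂ)‖ = 2 := by norm_num
    rw [this]; linarith
  have hprod : κ ^ 2 < 3 * (‖x 1‖ * ‖x 3‖) := by
    have h1 : ‖H b x‖ ≤ ‖x 1‖ * ‖x 3‖ * Real.exp 1 := by
      unfold H
      rw [norm_mul, norm_mul]
      exact mul_le_mul_of_nonneg_left hexp (by positivity)
    have h2 : Real.exp 1 < 3 := by
      have := Real.exp_one_lt_d9; linarith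
    have h3 : 0 < ‖x 1‖ * ‖x 3‖ := mul_pos (norm_pos_iff.2 hx1) (norm_pos_iff.2 hx3)
    nlinarith
  have hx1C := hCK x hxR.1 1
  have hx3C := hCK x hxR.1 3
  have hηC : 3 * (η * C) = κ ^ 2 / 2 := by rw [hη]; field_simp; norm_num
  have hκ2 : 0 < κ ^ 2 := by positivity
  have hx1s : η < ‖x 1‖ := by
    refine lt_of_le_of_ne hxR.2.1 fun h => ?_
    have : ‖x 1‖ * ‖x 3‖ ≤ η * C := by
      rw [← h]; exact mul_le_mul_of_nonneg_left hx3C hη0.le
    linarith
  have hx3s : η < ‖x 3‖ := by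
    refine lt_of_le_of_ne hxR.2.2 fun h => ?_
    have : ‖x 1‖ * ‖x 3‖ ≤ C * η := by
      rw [← h]; exact mul_le_mul_of_nonneg_right hx1C hη0.le
    linarith
  -- first order condition
  have hfirst : ∀ y : Fin 4 → ℂ, ‖L y‖ ≤ 1 → (phi b x y).re ≤ 1 := by
    intro y hy
    have hd := hasDerivAt_H b x y hx1 hx3
    have hle : ∀ᶠ t : ℝ in 𝓝[>] 0, ‖H b (x + (t : ℂ) • (y - x)) / H b x‖ ≤ 1 := by
      have c1 : Continuous fun t : ℝ => ‖(x + (t : ℂ) • (y - x)) 1‖ := by
        simp only [Pi.add_apply, Pi.smul_apply, smul_eq_mul]; fun_prop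
      have c3 : Continuous fun t : ℝ => ‖(x + (t : ℂ) • (y - x)) 3‖ := by
        simp only [Pi.add_apply, Pi.smul_apply, smul_eq_mul]; fun_prop
      have e1 : ∀ᶠ t : ℝ in 𝓝 0, η < ‖(x + (t : ℂ) • (y - x)) 1‖ :=
        c1.continuousAt.eventually (lt_mem_nhds (by simpa using hx1s))
      have e3 : ∀ᶠ t : ℝ in 𝓝 0, η < ‖(x + (t : ℂ) • (y - x)) 3‖ :=
        c3.continuousAt.eventually (lt_mem_nhds (by simpa using hx3s))
      have e4 : ∀ᶠ t : ℝ in 𝓝 0, t < 1 := gt_mem_nhds (by norm_num)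
      filter_upwards [nhdsWithin_le_nhds e1, nhdsWithin_le_nhds e3, nhdsWithin_le_nhds e4,
        self_mem_nhdsWithin] with t h1 h3 h4 h5
      have h5' : (0 : ℝ) < t := h5
      have hin : x + (t : ℂ) • (y - x) ∈ R := by
        refine ⟨?_, h1.le, h3.le⟩
        have : L (x + (t : ℂ) • (y - x)) = ((1 - t : ℝ) : ℂ) • L x + (t : ℂ) • L y := by
          rw [map_add, map_smul, map_sub, smul_sub]; push_cast; rw [sub_smul, one_smul]; abel
        rw [this]
        refine (norm_add_le _ _).trans ?_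
        rw [norm_smul, norm_smul, Complex.norm_real, Complex.norm_real,
          Real.norm_of_nonneg (by linarith), Real.norm_of_nonneg h5'.le]
        have := hxR.1
        nlinarith
      rw [norm_div, div_le_one (norm_pos_iff.2 hHx)]
      exact hx hin
    have := re_le_zero_of_norm_le (k := fun t : ℂ => H b (x + t • (y - x)) / H b x) hd
      (by simp [hHx]) hle
    have e : (2 * (phi b x y - 1)).re = 2 * ((phi b x y).re - 1) := by simp
    rw [e] at this
    linarith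
  have hbound : ∀ y : Fin 4 → ℂ, ‖phi b x y‖ ≤ ‖L y‖ := by
    intro y
    by_cases hy : L y = 0
    · have : y = 0 := hinj (by rw [hy, map_zero])
      rw [this, map_zero, map_zero, norm_zero, norm_zero]
    by_cases hp : phi b x y = 0
    · rw [hp, norm_zero]; exact norm_nonneg _
    have hyn : ‖L y‖ ≠ 0 := norm_ne_zero_iff.2 hy
    have hpn : ‖phi b x y‖ ≠ 0 := norm_ne_zero_iff.2 hp
    have hyc : (‖L y‖ : ℂ) ≠ 0 := by exact_mod_cast hyn
    have hpc : (‖phi b x y‖ : ℂ) ≠ 0 := by exact_mod_cast hpn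
    set u : ℂ := conj (phi b x y) / (‖phi b x y‖ * ‖L y‖ : ℂ) with hu
    have hun : ‖u‖ = 1 / ‖L y‖ := by
      rw [hu, norm_div, norm_mul, Complex.norm_conj, Complex.norm_real, Complex.norm_real,
        norm_norm, norm_norm]
      field_simp
    have h1 := hfirst (u • y) (by
      rw [map_smul, norm_smul, hun, one_div, inv_mul_cancel₀ hyn])
    have h2 : phi b x (u • y) = ((‖phi b x y‖ / ‖L y‖ : ℝ) : ℂ) := by
      rw [map_smul, smul_eq_mul, hu]
      have : conj (phi b x y) * phi b x y = (‖phi b x y‖ : ℂ) ^ 2 := by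
        rw [← Complex.normSq_eq_conj_mul_self, Complex.normSq_eq_norm_sq]; push_cast; ring
      rw [div_mul_eq_mul_div, this]
      push_cast
      field_simp
    rw [h2, Complex.ofReal_re, div_le_one (norm_pos_iff.2 hy)] at h1
    exact h1
  -- the functional
  let e : (Fin 4 → ℂ) ≃ₗ[ℂ] LinearMap.range L := LinearEquiv.ofInjective L hinj
  have he : ∀ y, ((e y : LinearMap.range L) : Y) = L y := fun y => rfl
  let f0 : LinearMap.range L →ₗ[ℂ] ℂ := (phi b x).comp e.symm.toLinearMap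
  have hf0 : ∀ y, f0 (e y) = phi b x y := fun y => by
    simp only [f0, LinearMap.comp_apply, LinearEquiv.coe_coe, LinearEquiv.symm_apply_apply]
  have hf0b : ∀ z, ‖f0 z‖ ≤ 1 * ‖z‖ := by
    intro z
    obtain ⟨y, rfl⟩ := e.surjective z
    rw [hf0, one_mul]
    exact hbound y
  obtain ⟨g, hg1, hg2⟩ := exists_extension_norm_eq (LinearMap.range L) (f0.mkContinuous 1 hf0b)
  have hg3 : ‖g‖ ≤ 1 := by rw [hg2]; exact LinearMap.mkContinuous_norm_le _ (by norm_num) _
  have hgy : ∀ y, g (L y) = phi b x y := by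
    intro y
    have := hg1 (e y)
    rw [he] at this
    rw [this, LinearMap.mkContinuous_apply, hf0]
  have hgx : g (L x) = 1 := by rw [hgy, phi_self b x hx1 hx3]
  have hge := g.le_opNorm (L x)
  rw [hgx, norm_one] at hge
  have hLx : ‖L x‖ = 1 := by
    refine le_antisymm hxR.1 ?_
    calc 1 ≤ ‖g‖ * ‖L x‖ := hge
      _ ≤ 1 * ‖L x‖ := mul_le_mul_of_nonneg_right hg3 (norm_nonneg _)
      _ = _ := one_mul _
  refine ⟨x, g, hx1, hx3, by rw [← hLa]; exact hLx, ?_, by rw [← hLa]; exact hgx, ?_⟩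
  · refine le_antisymm hg3 ?_
    rw [hLx, mul_one] at hge; exact hge
  · intro y; rw [← hLa]; exact hgy y

end Pool.Agent.V11205.NH
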