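import Mathlib
import Pool.Agent.V11205.NH.Dense
import Pool.Agent.V11205.NH.Opt

/-!
Operators with two Jordan chains of length two whose eigenvalues have equal modulus `≥ 1` and
independent arguments are numerically hypercyclic, in any norm.
-/

set_option autoImplicit false

namespace Pool.Agent.V11205.NH

open Filter Topology ComplexConjugate

section alg

variable {Y : Type*} [NormedAddCommGroup Y] [NormedSpace ℂ Y]

lemma linInd (S : Y →L[ℂ] Y) (l1 l2 : ℂ) (v : Fin 4 → Y)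
    (h0 : S (v 0) = l1 • v 0) (h1 : S (v 1) = l1 • (v 1 + v 0))
    (h2 : S (v 2) = l2 • v 2) (h3 : S (v 3) = l2 • (v 3 + v 2))
    (hv0 : v 0 ≠ 0) (hv2 : v 2 ≠ 0) (hl1 : l1 ≠ 0) (hl2 : l2 ≠ 0) (hne : l1 ≠ l2) :
    LinearIndependent ℂ v := by
  rw [Fintype.linearIndependent_iff]
  intro c hc
  rw [Fin.sum_univ_four] at hc
  have hμ : l2 - l1 ≠ 0 := sub_ne_zero.2 (Ne.symm hne)
  have E1 : (c 1 * l1) • v 0 + (c 2 * (l2 - l1) + c 3 * l2) • v 2 + (c 3 * (l2 - l1)) • v 3 = 0 := by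
    have := congrArg S hc
    simp only [map_add, map_smul, map_zero, h0, h1, h2, h3] at this
    linear_combination (norm := module) this - l1 • hc
  have E2 : ((c 2 * (l2 - l1) + c 3 * l2) * (l2 - l1) + c 3 * (l2 - l1) * l2) • v 2 +
      (c 3 * (l2 - l1) * (l2 - l1)) • v 3 = 0 := by
    have := congrArg S E1
    simp only [map_add, map_smul, map_zero, h0, h1, h2, h3] at this
    linear_combination (norm := module) this - l1 • E1
  have E3 : (c 3 * (l2 - l1) * (l2 - l1) * l2) • v 2 = 0 := by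
    have := congrArg S E2
    simp only [map_add, map_smul, map_zero, h0, h1, h2, h3] at this
    linear_combination (norm := module) this - l2 • E2
  have hc3 : c 3 = 0 := by
    rcases smul_eq_zero.1 E3 with h | h
    · simpa [hμ, hl2] using h
    · exact absurd h hv2
  have hc2 : c 2 = 0 := by
    rw [hc3] at E2
    simp only [zero_mul, add_zero, zero_smul] at E2
    rcases smul_eq_zero.1 E2 with h | h
    · simpa [hμ] using h
    · exact absurd h hv2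
  have hc1 : c 1 = 0 := by
    rw [hc3, hc2] at E1
    simp only [zero_mul, add_zero, zero_smul] at E1
    rcases smul_eq_zero.1 E1 with h | h
    · simpa [hl1] using h
    · exact absurd h hv0
  have hc0 : c 0 = 0 := by
    rw [hc3, hc2, hc1] at hc
    simp only [add_zero, zero_smul] at hc
    rcases smul_eq_zero.1 hc with h | h
    · exact h
    · exact absurd h hv0
  intro i
  fin_cases i
  · exact hc0
  · exact hc1
  · exact hc2
  · exact hc3

lemma pow_apply (S : Y →L[ℂ] Y) (l1 l2 : ℂ) (v : Fin 4 → Y)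
    (h0 : S (v 0) = l1 • v 0) (h1 : S (v 1) = l1 • (v 1 + v 0))
    (h2 : S (v 2) = l2 • v 2) (h3 : S (v 3) = l2 • (v 3 + v 2)) (c : Fin 4 → ℂ) (n : ℕ) :
    (S ^ n) (∑ i, c i • v i) =
      ∑ i, (![l1 ^ n * (c 0 + n * c 1), l1 ^ n * c 1, l2 ^ n * (c 2 + n * c 3), l2 ^ n * c 3] :
        Fin 4 → ℂ) i • v i := by
  induction n with
  | zero => simp [Fin.sum_univ_four]
  | succ n ih =>
    rw [pow_succ', mul_apply_eq_comp, ih]
    simp only [Fin.sum_univ_four, Matrix.cons_val_zero, Matrix.cons_val_one, Matrix.cons_val,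
      map_add, map_smul, h0, h1, h2, h3]
    push_cast
    rw [pow_succ, pow_succ]
    module

end alg

theorem main {Y : Type*} [NormedAddCommGroup Y] [NormedSpace ℂ Y] (S : Y →L[ℂ] Y) (l1 l2 : ℂ)
    (v : Fin 4 → Y) (h0 : S (v 0) = l1 • v 0) (h1 : S (v 1) = l1 • (v 1 + v 0))
    (h2 : S (v 2) = l2 • v 2) (h3 : S (v 3) = l2 • (v 3 + v 2))
    (hv0 : v 0 ≠ 0) (hv2 : v 2 ≠ 0) (hn : ‖l1‖ = ‖l2‖) (hge : 1 ≤ ‖l1‖)
    (hind : ∀ m n : ℤ, (l1 / ‖l1‖) ^ m * (l2 / ‖l2‖) ^ n = 1 → m = 0 ∧ n = 0) :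
    ∃ (y : Y) (g : StrongDual ℂ Y), ‖y‖ = 1 ∧ ‖g‖ = 1 ∧ g y = 1 ∧
      Dense (Set.range fun n : ℕ => g ((S ^ n) y)) := by
  have hl1n : ‖l1‖ ≠ 0 := by linarith
  have hl2n : ‖l2‖ ≠ 0 := by rw [← hn]; exact hl1n
  have hl1 : l1 ≠ 0 := norm_ne_zero_iff.1 hl1n
  have hl2 : l2 ≠ 0 := norm_ne_zero_iff.1 hl2n
  have hl1c : (‖l1‖ : ℂ) ≠ 0 := by exact_mod_cast hl1n
  have hl2c : (‖l2‖ : ℂ) ≠ 0 := by exact_mod_cast hl2n
  have hne : l1 ≠ l2 := by
    intro h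
    have := hind 1 (-1) (by
      rw [← h, zpow_one, zpow_neg, zpow_one, mul_inv_cancel₀ (div_ne_zero hl1 hl1c)])
    exact one_ne_zero this.1
  have hlin := linInd S l1 l2 v h0 h1 h2 h3 hv0 hv2 hl1 hl2 hne
  obtain ⟨b0, hb0, hopt⟩ := exists_opt v hlin
  have hw1 : ‖l1 / (‖l1‖ : ℂ)‖ = 1 := by
    rw [norm_div, Complex.norm_real, norm_norm, div_self hl1n]
  have hw2 : ‖l2 / (‖l2‖ : ℂ)‖ = 1 := by
    rw [norm_div, Complex.norm_real, norm_norm, div_self hl2n]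
  obtain ⟨b, hb, hd⟩ := exists_b hw1 hw2 hge hind hb0
  obtain ⟨x, g, hx1, hx3, hx, hg, hgx, hgy⟩ := hopt b hb
  refine ⟨∑ i, x i • v i, g, hx, hg, hgx, ?_⟩
  have : (fun n : ℕ => g ((S ^ n) (∑ i, x i • v i))) =
      fun n : ℕ => F (l1 / (‖l1‖ : ℂ)) (l2 / (‖l2‖ : ℂ)) ‖l1‖ n b := by
    funext n
    rw [pow_apply S l1 l2 v h0 h1 h2 h3 x n, hgy, phi_apply, F]
    simp only [Matrix.cons_val_zero, Matrix.cons_val_one, Matrix.cons_val]
    have e1 : l1 ^ n = (‖l1‖ : ℂ) ^ n * (l1 / (‖l1‖ : ℂ)) ^ n := by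
      rw [← mul_pow, mul_div_cancel₀ _ hl1c]
    have e2 : l2 ^ n = (‖l1‖ : ℂ) ^ n * (l2 / (‖l2‖ : ℂ)) ^ n := by
      rw [hn, ← mul_pow, mul_div_cancel₀ _ hl2c]
    rw [e1, e2]
    generalize (l1 / (‖l1‖ : ℂ)) ^ n = W1
    generalize (l2 / (‖l2‖ : ℂ)) ^ n = W2
    generalize (‖l1‖ : ℂ) ^ n = P
    field_simp
    ring
  rw [this]
  exact hd

end Pool.Agent.V11205.NH
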